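import Mathlib

/-!
# `f(50) = 8000` is not an MC number

The largest circle enclosing at most `8000` lattice points has centre `(1/2, 0)` (up to the
symmetries of the lattice) and radius `√10205 / 2`; it encloses `7998` points and has `16` lattice
points on it.  Circles enclosing exactly `8000` points exist with radius arbitrarily close to
`√10205 / 2`, but none has that radius or a larger one.
-/

namespace Pool.Agent.Results.MP_2ab2dc_nt.NonMC8000

/-- The lattice points enclosed by (lying in the open interior of) the circle with centre `c` and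
radius `r`. -/
def enclosed (c : ℝ × ℝ) (r : ℝ) : Set (ℤ × ℤ) :=
  {p | ((p.1 : ℝ) - c.1) ^ 2 + ((p.2 : ℝ) - c.2) ^ 2 < r ^ 2}

/-- The circle with centre `c` and radius `r > 0` is an `n`-enclosing circle. -/
def IsEnclosing (n : ℕ) (c : ℝ × ℝ) (r : ℝ) : Prop :=
  0 < r ∧ (enclosed c r).encard = n

/-- The set of the radii of all `n`-enclosing circles. -/
def radii (n : ℕ) : Set ℝ := {r | ∃ c, IsEnclosing n c r}

/-- `R n`, the supremum of the radii of all `n`-enclosing circles. -/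
noncomputable def R (n : ℕ) : ℝ := sSup (radii n)

/-- `n` is an MC number: some `n`-enclosing circle has radius exactly `R n`. -/
def MC (n : ℕ) : Prop := ∃ c, IsEnclosing n c (R n)

/-- `f k`, the number of lattice points enclosed by the circle `𝒮_k` with centre `(1/2, 1/2)` and
radius `√(k² + k + 1/2)`. -/
noncomputable def f (k : ℕ) : ℕ :=
  (enclosed (1 / 2, 1 / 2) (Real.sqrt ((k : ℝ) ^ 2 + k + 1 / 2))).ncard

/-! ### Counting lattice points by columns -/

lemma encard_congr_equiv (e : (ℤ × ℤ) ≃ (ℤ × ℤ)) (A B : Set (ℤ × ℤ))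
    (h : ∀ p, e p ∈ A ↔ p ∈ B) : A.encard = B.encard := by
  have hA : A = e '' B := by
    ext q
    constructor
    · intro hq
      exact ⟨e.symm q, (h _).1 (by simpa using hq), by simp⟩
    · rintro ⟨p, hp, rfl⟩
      exact (h p).2 hp
  rw [hA, e.injective.encard_image]

/-- The finite set of the lattice points `(t - 50, y)` with `t < N` and `-lo t < y ≤ hi t`. -/
noncomputable def colSet (lo hi : ℕ → ℕ) (N : ℕ) : Finset (ℤ × ℤ) :=
  ((Finset.range N).sigma (fun t => Finset.Ioc (-(lo t : ℤ)) (hi t : ℤ))).image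
    (fun s : (_ : ℕ) × ℤ => (((s.1 : ℤ) - 50, s.2) : ℤ × ℤ))

lemma card_colSet (lo hi : ℕ → ℕ) (N : ℕ) :
    (colSet lo hi N).card = ∑ t ∈ Finset.range N, (lo t + hi t) := by
  unfold colSet
  rw [Finset.card_image_of_injective, Finset.card_sigma]
  · refine Finset.sum_congr rfl fun t _ => ?_
    rw [Int.card_Ioc]
    omega
  · rintro ⟨a, b⟩ ⟨c, d⟩ h
    simp only [Prod.mk.injEq, sub_left_inj, Nat.cast_inj] at h
    obtain ⟨h1, h2⟩ := h
    subst h1; subst h2; rfl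

lemma mem_colSet (lo hi : ℕ → ℕ) (N : ℕ) (p : ℤ × ℤ) :
    p ∈ colSet lo hi N ↔ ∃ t < N, p.1 = (t : ℤ) - 50 ∧ -(lo t : ℤ) < p.2 ∧ p.2 ≤ hi t := by
  unfold colSet
  simp only [Finset.mem_image, Finset.mem_sigma, Finset.mem_range, Finset.mem_Ioc]
  constructor
  · rintro ⟨⟨t, y⟩, ⟨h1, h2⟩, rfl⟩
    exact ⟨t, h1, rfl, h2⟩
  · rintro ⟨t, h1, h2, h3⟩
    exact ⟨⟨t, p.2⟩, ⟨h1, h3⟩, by ext <;> simp [h2]⟩

lemma encard_ge (S : Set (ℤ × ℤ)) (lo hi : ℕ → ℕ) (N : ℕ)
    (h : ∀ t < N, ∀ y : ℤ, -(lo t : ℤ) < y → y ≤ hi t → ((t : ℤ) - 50, y) ∈ S) :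
    ((∑ t ∈ Finset.range N, (lo t + hi t) : ℕ) : ℕ∞) ≤ S.encard := by
  rw [← card_colSet, ← Set.encard_coe_eq_coe_finsetCard]
  apply Set.encard_le_encard
  intro p hp
  rw [Finset.mem_coe, mem_colSet] at hp
  obtain ⟨t, ht, h1, h2, h3⟩ := hp
  have := h t ht p.2 h2 h3
  rw [← h1] at this
  exact this

/-- Structural sum, convenient for kernel evaluation. -/
def tot (g : ℕ → ℕ) : ℕ → ℕ
  | 0 => 0
  | n + 1 => tot g n + g n

lemma tot_eq (g : ℕ → ℕ) (n : ℕ) : tot g n = ∑ t ∈ Finset.range n, g t := by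
  induction n with
  | zero => simp [tot]
  | succ n ih => rw [tot, ih, Finset.sum_range_succ]

/-- Bitwise integer square root. -/
def isqAux : ℕ → ℕ → ℕ → ℕ
  | 0, _, r => r
  | b + 1, n, r =>
    bif Nat.ble ((r + 2 ^ b) * (r + 2 ^ b)) n then isqAux b n (r + 2 ^ b) else isqAux b n r

lemma isqAux_sq (b n r : ℕ) (h : r * r ≤ n) : isqAux b n r * isqAux b n r ≤ n := by
  induction b generalizing r with
  | zero => simpa [isqAux] using h
  | succ b ih =>
    rw [isqAux]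
    by_cases hb : Nat.ble ((r + 2 ^ b) * (r + 2 ^ b)) n = true
    · rw [hb]; exact ih _ (Nat.le_of_ble_eq_true hb)
    · rw [Bool.not_eq_true] at hb
      rw [hb]; exact ih _ h

/-- Integer square root of numbers below `2 ^ 30`. -/
def isq (n : ℕ) : ℕ := isqAux 15 n 0

lemma isq_sq (n : ℕ) : isq n * isq n ≤ n := isqAux_sq _ _ _ (by simp)

/-! ### The certificate for the cells of centres -/

def dxs (x0 x1 D t : ℕ) : ℕ := bif Nat.ble t 50 then D * (50 - t) + x1 else D * (t - 50) - x0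

def rad (D dx : ℕ) : ℕ := isq ((10205 * (D * D) - 1 - 4 * (dx * dx)) / 4)

lemma rad_sq (D dx : ℕ) : rad D dx * rad D dx ≤ (10205 * (D * D) - 1 - 4 * (dx * dx)) / 4 := by
  unfold rad
  exact isq_sq _

def hiC (y0 D m : ℕ) : ℕ := (m + y0) / D

def loC (y1 D m : ℕ) : ℕ := bif Nat.ble y1 m then (m - y1) / D + 1 else 0

def colC (y0 y1 D dx : ℕ) : ℕ :=
  bif Nat.blt (4 * (dx * dx)) (10205 * (D * D)) then
    loC y1 D (rad D dx) + hiC y0 D (rad D dx) else 0

def cnt (x0 x1 y0 y1 D : ℕ) : ℕ := tot (fun t => colC y0 y1 D (dxs x0 x1 D t)) 102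

def chk : ℕ → ℕ → ℕ → ℕ → ℕ → ℕ → Bool
  | 0, _, _, _, _, _ => false
  | k + 1, x0, x1, y0, y1, D =>
    (Nat.blt x1 y0) || (Nat.ble (127 * D) (256 * x0) && Nat.ble (256 * y1) D) ||
    (Nat.ble 8001 (cnt x0 x1 y0 y1 D)) ||
    (chk k (2 * x0) (x0 + x1) (2 * y0) (y0 + y1) (2 * D) &&
     chk k (2 * x0) (x0 + x1) (y0 + y1) (2 * y1) (2 * D) &&
     chk k (x0 + x1) (2 * x1) (2 * y0) (y0 + y1) (2 * D) &&
     chk k (x0 + x1) (2 * x1) (y0 + y1) (2 * y1) (2 * D))

theorem chk_true : chk 10 0 1 0 1 2 = true := by decide +kernel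

/-- The critical radius. -/
noncomputable def rho : ℝ := Real.sqrt 10205 / 2

lemma rho_sq : rho ^ 2 = 10205 / 4 := by
  unfold rho
  rw [div_pow, Real.sq_sqrt (by norm_num)]
  norm_num

lemma rho_pos : 0 < rho := by
  unfold rho
  have : (0 : ℝ) < Real.sqrt 10205 := Real.sqrt_pos.2 (by norm_num)
  linarith

lemma cell_sound (x0 x1 y0 y1 D : ℕ) (hD : 0 < D) (hx1 : x1 ≤ D) (hy1 : y1 ≤ D)
    (c : ℝ × ℝ) (h1 : (x0 : ℝ) ≤ D * c.1) (h2 : D * c.1 ≤ x1)
    (h3 : (y0 : ℝ) ≤ D * c.2) (h4 : D * c.2 ≤ y1) :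
    ((cnt x0 x1 y0 y1 D : ℕ) : ℕ∞) ≤ (enclosed c rho).encard := by
  have hDr : (0 : ℝ) < D := by exact_mod_cast hD
  have hx1r : (x1 : ℝ) ≤ D := by exact_mod_cast hx1
  have hy1r : (y1 : ℝ) ≤ D := by exact_mod_cast hy1
  have hx0r : (0 : ℝ) ≤ x0 := by positivity
  have hy0r : (0 : ℝ) ≤ y0 := by positivity
  have hcount : cnt x0 x1 y0 y1 D = ∑ t ∈ Finset.range 102,
      ((if 4 * (dxs x0 x1 D t * dxs x0 x1 D t) < 10205 * (D * D) then
          loC y1 D (rad D (dxs x0 x1 D t)) else 0) +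
       (if 4 * (dxs x0 x1 D t * dxs x0 x1 D t) < 10205 * (D * D) then
          hiC y0 D (rad D (dxs x0 x1 D t)) else 0)) := by
    unfold cnt
    rw [tot_eq]
    refine Finset.sum_congr rfl fun t _ => ?_
    unfold colC
    by_cases h : 4 * (dxs x0 x1 D t * dxs x0 x1 D t) < 10205 * (D * D)
    · rw [if_pos h, if_pos h]
      have : Nat.blt (4 * (dxs x0 x1 D t * dxs x0 x1 D t)) (10205 * (D * D)) = true := by
        rw [Nat.blt_eq]; exact h
      rw [this]; rfl
    · rw [if_neg h, if_neg h]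
      have : Nat.blt (4 * (dxs x0 x1 D t * dxs x0 x1 D t)) (10205 * (D * D)) = false := by
        rw [← Bool.not_eq_true, Nat.blt_eq]; exact h
      rw [this]; rfl
  rw [hcount]
  apply encard_ge
  intro t ht y hy1' hy2'
  by_cases h : 4 * (dxs x0 x1 D t * dxs x0 x1 D t) < 10205 * (D * D)
  swap
  · rw [if_neg h] at hy1' hy2'
    push_cast at hy1' hy2'
    omega
  rw [if_pos h] at hy1' hy2'
  have hmsq := rad_sq D (dxs x0 x1 D t)
  generalize hm : rad D (dxs x0 x1 D t) = m at *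
  generalize hdx : dxs x0 x1 D t = dx at *
  have hmsq' : 4 * (dx * dx) + 4 * (m * m) < 10205 * (D * D) := by omega
  have hmr : 4 * ((dx : ℝ) * dx) + 4 * ((m : ℝ) * m) < 10205 * ((D : ℝ) * D) := by
    exact_mod_cast hmsq'
  -- horizontal distance
  have hX : |(D : ℝ) * (((t : ℤ) - 50 : ℤ) : ℝ) - D * c.1| ≤ dx := by
    rw [abs_le]
    by_cases ht50 : t ≤ 50
    · have hb : Nat.ble t 50 = true := by simpa using ht50
      have hdx' : dx = D * (50 - t) + x1 := by rw [← hdx, dxs, hb]; rfl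
      have hdxr : (dx : ℝ) = D * (50 - t) + x1 := by
        rw [hdx']; push_cast [Nat.cast_sub ht50]; ring
      have ht' : (t : ℝ) ≤ 50 := by exact_mod_cast ht50
      have : 0 ≤ (D : ℝ) * (50 - t) := mul_nonneg hDr.le (by linarith)
      push_cast
      constructor <;> nlinarith
    · have hb : Nat.ble t 50 = false := by
        rw [← Bool.not_eq_true, Nat.ble_eq]; exact ht50
      have hdx' : dx = D * (t - 50) - x0 := by rw [← hdx, dxs, hb]; rfl
      have ht50' : 51 ≤ t := by omega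
      have hx0D : x0 ≤ D * (t - 50) := by
        have hx0x1 : x0 ≤ x1 := by
          have : (x0 : ℝ) ≤ x1 := le_trans h1 h2
          exact_mod_cast this
        calc x0 ≤ D := le_trans hx0x1 hx1
          _ = D * 1 := by ring
          _ ≤ D * (t - 50) := Nat.mul_le_mul_left _ (by omega)
      have hdxr : (dx : ℝ) = D * (t - 50) - x0 := by
        rw [hdx', Nat.cast_sub hx0D]; push_cast [Nat.cast_sub (by omega : 50 ≤ t)]; ring
      have ht' : (51 : ℝ) ≤ t := by exact_mod_cast ht50'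
      have : 0 ≤ (D : ℝ) * (t - 51) := mul_nonneg hDr.le (by linarith)
      push_cast
      constructor <;> nlinarith
  -- vertical distance
  have hY : |(D : ℝ) * (y : ℝ) - D * c.2| ≤ m := by
    rw [abs_le]
    rcases le_or_gt y 0 with hy0 | hy0
    · -- y ≤ 0
      have hlo : 0 < loC y1 D m := by
        by_contra hcon
        have : loC y1 D m = 0 := by omega
        rw [this] at hy1'
        push_cast at hy1'
        omega
      have hb : Nat.ble y1 m = true := by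
        by_contra hcon
        rw [Bool.not_eq_true] at hcon
        rw [loC, hcon] at hlo
        simp at hlo
      have hlo' : loC y1 D m = (m - y1) / D + 1 := by rw [loC, hb]; rfl
      have hym : y1 ≤ m := Nat.le_of_ble_eq_true hb
      obtain ⟨j, hj⟩ : ∃ j : ℕ, y = -(j : ℤ) := ⟨y.natAbs, by omega⟩
      have hj' : j ≤ (m - y1) / D := by
        rw [hlo', hj] at hy1'
        push_cast at hy1'
        omega
      have hj'' : D * j ≤ m - y1 := by
        calc D * j ≤ D * ((m - y1) / D) := Nat.mul_le_mul_left _ hj'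
          _ ≤ m - y1 := Nat.mul_div_le _ _
      have hj3 : D * j + y1 ≤ m := by omega
      have hj4 : (D : ℝ) * j + y1 ≤ m := by exact_mod_cast hj3
      have hyr : (y : ℝ) = -(j : ℝ) := by rw [hj]; push_cast; ring
      have : 0 ≤ (D : ℝ) * j := mul_nonneg hDr.le (Nat.cast_nonneg j)
      rw [hyr]
      constructor <;> nlinarith
    · obtain ⟨j, hj⟩ : ∃ j : ℕ, y = (j : ℤ) := ⟨y.natAbs, by omega⟩
      have hj1 : 1 ≤ j := by omega
      have hj' : j ≤ (m + y0) / D := by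
        rw [hj, hiC] at hy2'
        exact_mod_cast hy2'
      have hj'' : D * j ≤ m + y0 := by
        calc D * j ≤ D * ((m + y0) / D) := Nat.mul_le_mul_left _ hj'
          _ ≤ m + y0 := Nat.mul_div_le _ _
      have hj4 : (D : ℝ) * j ≤ m + y0 := by exact_mod_cast hj''
      have hj1r : (1 : ℝ) ≤ j := by exact_mod_cast hj1
      have hyr : (y : ℝ) = (j : ℝ) := by rw [hj]; push_cast; ring
      have : 0 ≤ (D : ℝ) * (j - 1) := mul_nonneg hDr.le (by linarith)
      rw [hyr]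
      constructor <;> nlinarith
  -- conclusion
  show ((((t : ℤ) - 50 : ℤ) : ℝ) - c.1) ^ 2 + ((y : ℝ) - c.2) ^ 2 < rho ^ 2
  rw [rho_sq]
  have hX2 : ((D : ℝ) * (((t : ℤ) - 50 : ℤ) : ℝ) - D * c.1) ^ 2 ≤ (dx : ℝ) ^ 2 := by
    rw [← sq_abs]
    exact pow_le_pow_left₀ (abs_nonneg _) hX 2
  have hY2 : ((D : ℝ) * (y : ℝ) - D * c.2) ^ 2 ≤ (m : ℝ) ^ 2 := by
    rw [← sq_abs]
    exact pow_le_pow_left₀ (abs_nonneg _) hY 2
  have hD2 : (0 : ℝ) < (D : ℝ) ^ 2 := by positivity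
  have key : (D : ℝ) ^ 2 * (((((t : ℤ) - 50 : ℤ) : ℝ) - c.1) ^ 2 + ((y : ℝ) - c.2) ^ 2)
      < (D : ℝ) ^ 2 * (10205 / 4) := by
    have e1 : (D : ℝ) ^ 2 * (((((t : ℤ) - 50 : ℤ) : ℝ) - c.1) ^ 2 + ((y : ℝ) - c.2) ^ 2)
        = ((D : ℝ) * (((t : ℤ) - 50 : ℤ) : ℝ) - D * c.1) ^ 2 +
          ((D : ℝ) * (y : ℝ) - D * c.2) ^ 2 := by ring
    rw [e1]
    nlinarith
  exact lt_of_mul_lt_mul_left key hD2.le

lemma chk_sound (k x0 x1 y0 y1 D : ℕ) (hD : 0 < D) (hx1 : x1 ≤ D) (hy1 : y1 ≤ D)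
    (hchk : chk k x0 x1 y0 y1 D = true)
    (c : ℝ × ℝ) (h1 : (x0 : ℝ) ≤ D * c.1) (h2 : D * c.1 ≤ x1)
    (h3 : (y0 : ℝ) ≤ D * c.2) (h4 : D * c.2 ≤ y1) (h5 : c.2 ≤ c.1)
    (h6 : ¬ (127 / 256 ≤ c.1 ∧ c.2 ≤ 1 / 256)) :
    ((8001 : ℕ) : ℕ∞) ≤ (enclosed c rho).encard := by
  induction k generalizing x0 x1 y0 y1 D with
  | zero => simp [chk] at hchk
  | succ k ih =>
    have hDr : (0 : ℝ) < D := by exact_mod_cast hD
    rw [chk] at hchk
    simp only [Bool.or_eq_true, Bool.and_eq_true, Nat.blt_eq, Nat.ble_eq] at hchk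
    rcases hchk with ((hA | hB) | hC) | hE
    · exfalso
      have hA' : (x1 : ℝ) < y0 := by exact_mod_cast hA
      nlinarith
    · exfalso
      apply h6
      obtain ⟨hB1, hB2⟩ := hB
      have hB1' : (127 : ℝ) * D ≤ 256 * x0 := by exact_mod_cast hB1
      have hB2' : (256 : ℝ) * y1 ≤ D := by exact_mod_cast hB2
      constructor
      · by_contra hcon
        push Not at hcon
        nlinarith
      · by_contra hcon
        push Not at hcon
        nlinarith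
    · exact le_trans (by exact_mod_cast hC) (cell_sound x0 x1 y0 y1 D hD hx1 hy1 c h1 h2 h3 h4)
    · obtain ⟨⟨⟨hE1, hE2⟩, hE3⟩, hE4⟩ := hE
      have hx0x1 : x0 ≤ x1 := by
        have : (x0 : ℝ) ≤ x1 := le_trans h1 h2
        exact_mod_cast this
      have hy0y1 : y0 ≤ y1 := by
        have : (y0 : ℝ) ≤ y1 := le_trans h3 h4
        exact_mod_cast this
      rcases le_total (2 * (D : ℝ) * c.1) ((x0 : ℝ) + x1) with hx | hx <;>
      rcases le_total (2 * (D : ℝ) * c.2) ((y0 : ℝ) + y1) with hy | hy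
      · exact ih (2 * x0) (x0 + x1) (2 * y0) (y0 + y1) (2 * D) (by omega) (by omega) (by omega)
          hE1 (by push_cast; nlinarith) (by push_cast; nlinarith) (by push_cast; nlinarith)
          (by push_cast; nlinarith)
      · exact ih (2 * x0) (x0 + x1) (y0 + y1) (2 * y1) (2 * D) (by omega) (by omega) (by omega)
          hE2 (by push_cast; nlinarith) (by push_cast; nlinarith) (by push_cast; nlinarith)
          (by push_cast; nlinarith)
      · exact ih (x0 + x1) (2 * x1) (2 * y0) (y0 + y1) (2 * D) (by omega) (by omega) (by omega)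
          hE3 (by push_cast; nlinarith) (by push_cast; nlinarith) (by push_cast; nlinarith)
          (by push_cast; nlinarith)
      · exact ih (x0 + x1) (2 * x1) (y0 + y1) (2 * y1) (2 * D) (by omega) (by omega) (by omega)
          hE4 (by push_cast; nlinarith) (by push_cast; nlinarith) (by push_cast; nlinarith)
          (by push_cast; nlinarith)

/-! ### Exact counts -/

/-- `|2 t - 101|` -/
def dist2 (t : ℕ) : ℕ := (101 - 2 * t) + (2 * t - 101)

def m0 (t : ℕ) : ℕ := isq ((10204 - dist2 t * dist2 t) / 4)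

def h1 (t : ℕ) : ℕ := (isq (10201 - dist2 t * dist2 t) + 1) / 2

/-- Kernel-friendly bounded quantifier. -/
def allB (P : ℕ → Bool) : ℕ → Bool
  | 0 => true
  | n + 1 => allB P n && P n

lemma allB_sound (P : ℕ → Bool) (n : ℕ) (h : allB P n = true) : ∀ t < n, P t = true := by
  induction n with
  | zero => intro t ht; omega
  | succ n ih =>
    rw [allB, Bool.and_eq_true] at h
    intro t ht
    rcases Nat.lt_succ_iff_lt_or_eq.1 ht with h' | h'
    · exact ih h.1 t h'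
    · rw [h']; exact h.2

theorem m0_check : allB (fun t => Nat.ble (4 * (m0 t * m0 t) + dist2 t * dist2 t) 10204 &&
    Nat.ble 10205 (4 * ((m0 t + 1) * (m0 t + 1)) + dist2 t * dist2 t)) 102 = true := by
  decide +kernel

theorem m0_count : tot (fun t => (m0 t + 1) + m0 t) 102 = 7998 := by decide +kernel

theorem h1_check : allB (fun t =>
    Nat.ble ((2 * h1 t - 1) * (2 * h1 t - 1) + dist2 t * dist2 t) 10201 &&
    Nat.ble 10202 ((2 * h1 t + 1) * (2 * h1 t + 1) + dist2 t * dist2 t)) 102 = true := by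
  decide +kernel

theorem h1_count : tot (fun t => h1 t + h1 t) 102 = 8000 := by decide +kernel

lemma dist2_sq (t : ℕ) (x : ℤ) (hx : x = (t : ℤ) - 50) :
    ((dist2 t * dist2 t : ℕ) : ℤ) = (2 * x - 1) ^ 2 := by
  subst hx
  unfold dist2
  rcases le_total (2 * t) 101 with h | h
  · rw [Nat.sub_eq_zero_of_le h, add_zero]
    push_cast [Nat.cast_sub h]
    ring
  · rw [Nat.sub_eq_zero_of_le h, zero_add]
    push_cast [Nat.cast_sub h]
    ring

/-- The lattice points enclosed by the critical circle with centre `(1/2, 0)`. -/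
def S0 : Set (ℤ × ℤ) := {p | (2 * p.1 - 1) ^ 2 + 4 * p.2 ^ 2 < 10205}

lemma exists_t (x : ℤ) (hx : (2 * x - 1) ^ 2 ≤ 10205) : ∃ t : ℕ, t < 102 ∧ x = (t : ℤ) - 50 := by
  have h1 : 2 * x - 1 < 102 := by nlinarith
  have h2 : -102 < 2 * x - 1 := by nlinarith
  exact ⟨(x + 50).toNat, by omega, by omega⟩

lemma S0_eq : S0 = (colSet (fun t => m0 t + 1) m0 102 : Set (ℤ × ℤ)) := by
  have hm := allB_sound _ _ m0_check
  ext p
  rw [Finset.mem_coe, mem_colSet]
  constructor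
  · intro hp
    have hp' : (2 * p.1 - 1) ^ 2 + 4 * p.2 ^ 2 < 10205 := hp
    obtain ⟨t, ht, hx⟩ := exists_t p.1 (by nlinarith [sq_nonneg p.2])
    refine ⟨t, ht, hx, ?_⟩
    have h := hm t ht
    simp only [Bool.and_eq_true, Nat.ble_eq] at h
    obtain ⟨_, h2⟩ := h
    have hd := dist2_sq t p.1 hx
    have h2' : (10205 : ℤ) ≤ 4 * (((m0 t : ℤ) + 1) * ((m0 t : ℤ) + 1)) +
        ((dist2 t * dist2 t : ℕ) : ℤ) := by exact_mod_cast h2
    rw [hd] at h2'
    have h3 : p.2 ^ 2 < ((m0 t : ℤ) + 1) ^ 2 := by nlinarith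
    have h4 := abs_lt_of_sq_lt_sq h3 (by positivity)
    rw [abs_lt] at h4
    push_cast
    constructor
    · linarith
    · linarith
  · rintro ⟨t, ht, hx, h1, h2⟩
    have h := hm t ht
    simp only [Bool.and_eq_true, Nat.ble_eq] at h
    obtain ⟨h3, _⟩ := h
    have hd := dist2_sq t p.1 hx
    have h3' : 4 * ((m0 t : ℤ) * (m0 t : ℤ)) + ((dist2 t * dist2 t : ℕ) : ℤ) ≤ 10204 := by
      exact_mod_cast h3
    rw [hd] at h3'
    show (2 * p.1 - 1) ^ 2 + 4 * p.2 ^ 2 < 10205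
    push_cast at h1
    have h4 : p.2 ^ 2 ≤ (m0 t : ℤ) ^ 2 := by
      apply sq_le_sq'
      · linarith
      · exact h2
    nlinarith

lemma S0_encard : S0.encard = 7998 := by
  rw [S0_eq, Set.encard_coe_eq_coe_finsetCard, card_colSet, ← tot_eq, m0_count]
  rfl

/-- The lattice points enclosed by `𝒮_50`. -/
def S1 : Set (ℤ × ℤ) := {p | (2 * p.1 - 1) ^ 2 + (2 * p.2 - 1) ^ 2 < 10202}

lemma S1_eq : S1 = (colSet h1 h1 102 : Set (ℤ × ℤ)) := by
  have hm := allB_sound _ _ h1_check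
  ext p
  rw [Finset.mem_coe, mem_colSet]
  constructor
  · intro hp
    have hp' : (2 * p.1 - 1) ^ 2 + (2 * p.2 - 1) ^ 2 < 10202 := hp
    obtain ⟨t, ht, hx⟩ := exists_t p.1 (by nlinarith [sq_nonneg (2 * p.2 - 1)])
    refine ⟨t, ht, hx, ?_⟩
    have h := hm t ht
    simp only [Bool.and_eq_true, Nat.ble_eq] at h
    obtain ⟨_, h2⟩ := h
    have hd := dist2_sq t p.1 hx
    have h2' : (10202 : ℤ) ≤ (2 * (h1 t : ℤ) + 1) * (2 * (h1 t : ℤ) + 1) +
        ((dist2 t * dist2 t : ℕ) : ℤ) := by exact_mod_cast h2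
    rw [hd] at h2'
    have h3 : (2 * p.2 - 1) ^ 2 < (2 * (h1 t : ℤ) + 1) ^ 2 := by nlinarith
    have h4 := abs_lt_of_sq_lt_sq h3 (by positivity)
    rw [abs_lt] at h4
    constructor
    · linarith
    · linarith
  · rintro ⟨t, ht, hx, h4, h5⟩
    have h := hm t ht
    simp only [Bool.and_eq_true, Nat.ble_eq] at h
    obtain ⟨h3, _⟩ := h
    have hd := dist2_sq t p.1 hx
    have h6' : (1 : ℤ) ≤ h1 t := by omega
    have h3' : (2 * (h1 t : ℤ) - 1) * (2 * (h1 t : ℤ) - 1) + ((dist2 t * dist2 t : ℕ) : ℤ)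
        ≤ 10201 := by
      have : ((2 * h1 t - 1 : ℕ) : ℤ) = 2 * (h1 t : ℤ) - 1 := by
        rw [Nat.cast_sub (by omega)]; push_cast; ring
      rw [← this]
      exact_mod_cast h3
    rw [hd] at h3'
    show (2 * p.1 - 1) ^ 2 + (2 * p.2 - 1) ^ 2 < 10202
    have h7 : (2 * p.2 - 1) ^ 2 ≤ (2 * (h1 t : ℤ) - 1) ^ 2 := by
      apply sq_le_sq'
      · linarith
      · linarith
    nlinarith

lemma S1_encard : S1.encard = 8000 := by
  rw [S1_eq, Set.encard_coe_eq_coe_finsetCard, card_colSet, ← tot_eq, h1_count]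
  rfl

lemma f_fifty : f 50 = 8000 := by
  have h : enclosed (1 / 2, 1 / 2) (Real.sqrt (((50 : ℕ) : ℝ) ^ 2 + (50 : ℕ) + 1 / 2)) = S1 := by
    ext p
    show ((p.1 : ℝ) - 1 / 2) ^ 2 + ((p.2 : ℝ) - 1 / 2) ^ 2 < _ ^ 2 ↔
      (2 * p.1 - 1) ^ 2 + (2 * p.2 - 1) ^ 2 < 10202
    rw [Real.sq_sqrt (by positivity)]
    have e : ((2 * p.1 - 1) ^ 2 + (2 * p.2 - 1) ^ 2 < 10202) ↔
        (2 * (p.1 : ℝ) - 1) ^ 2 + (2 * (p.2 : ℝ) - 1) ^ 2 < 10202 := by
      rw [← Int.cast_lt (R := ℝ)]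
      push_cast
      rfl
    rw [e]
    push_cast
    constructor <;> intro h <;> nlinarith
  unfold f
  rw [h, Set.ncard, S1_encard]
  rfl

lemma int_sq_lt {a b : ℤ} {x y : ℝ} (hx : x = a) (hy : y = b) : x < y ↔ a < b := by
  subst hx; subst hy; exact Int.cast_lt

/-- `q ≡ 1 (mod 4)`. -/
lemma q_gap (p : ℤ × ℤ) :
    (2 * p.1 - 1) ^ 2 + 4 * p.2 ^ 2 ≤ 10201 ∨ (2 * p.1 - 1) ^ 2 + 4 * p.2 ^ 2 = 10205 ∨
      10209 ≤ (2 * p.1 - 1) ^ 2 + 4 * p.2 ^ 2 := by
  have : (2 * p.1 - 1) ^ 2 + 4 * p.2 ^ 2 = 4 * (p.1 ^ 2 - p.1 + p.2 ^ 2) + 1 := by ring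
  omega

lemma enclosed_center : enclosed (1 / 2, 0) rho = S0 := by
  ext p
  show ((p.1 : ℝ) - 1 / 2) ^ 2 + ((p.2 : ℝ) - 0) ^ 2 < rho ^ 2 ↔
    (2 * p.1 - 1) ^ 2 + 4 * p.2 ^ 2 < 10205
  rw [rho_sq]
  have e : ((2 * p.1 - 1) ^ 2 + 4 * p.2 ^ 2 < 10205) ↔
      (2 * (p.1 : ℝ) - 1) ^ 2 + 4 * (p.2 : ℝ) ^ 2 < 10205 := by
    rw [← Int.cast_lt (R := ℝ)]
    push_cast
    rfl
  rw [e]
  constructor <;> intro h <;> nlinarith

lemma enclosed_mono (c : ℝ × ℝ) {r s : ℝ} (hr : 0 ≤ r) (h : r ≤ s) :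
    enclosed c r ⊆ enclosed c s := by
  intro p hp
  exact lt_of_lt_of_le hp (pow_le_pow_left₀ hr h 2)

/-- Three of the sixteen lattice points on the critical circle. -/
def B3 : Finset (ℤ × ℤ) := {(-18, 47), (-26, 43), (-29, 41)}

lemma S0_union_encard : ((8001 : ℕ) : ℕ∞) ≤ (S0 ∪ (B3 : Set (ℤ × ℤ))).encard := by
  rw [Set.encard_union_eq]
  · rw [S0_encard, Set.encard_coe_eq_coe_finsetCard]
    have : B3.card = 3 := by decide
    rw [this]
    exact le_of_eq (by norm_num)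
  · rw [Set.disjoint_left]
    intro p hp hq
    have hp' : (2 * p.1 - 1) ^ 2 + 4 * p.2 ^ 2 < 10205 := hp
    rw [Finset.mem_coe, B3] at hq
    simp only [Finset.mem_insert, Finset.mem_singleton] at hq
    rcases hq with h | h | h <;> rw [h] at hp' <;> norm_num at hp'

/-- In the corner `(1/2, 0)` of the triangle of centres. -/
lemma special (a b : ℝ) (ha : 0 ≤ a) (ha' : a ≤ 1 / 256) (hb : 0 ≤ b) (hb' : b ≤ 1 / 256)
    (r : ℝ) (hr : rho ≤ r) (hne : rho < r ∨ 0 < a ∨ 0 < b) :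
    ((8001 : ℕ) : ℕ∞) ≤ (enclosed (1 / 2 - a, b) r).encard := by
  refine le_trans S0_union_encard (Set.encard_le_encard ?_)
  have hr2 : rho ^ 2 ≤ r ^ 2 := pow_le_pow_left₀ rho_pos.le hr 2
  rw [rho_sq] at hr2
  rintro p (hp | hp)
  · show ((p.1 : ℝ) - (1 / 2 - a)) ^ 2 + ((p.2 : ℝ) - b) ^ 2 < r ^ 2
    have hp' : (2 * p.1 - 1) ^ 2 + 4 * p.2 ^ 2 < 10205 := hp
    have hq : (2 * p.1 - 1) ^ 2 + 4 * p.2 ^ 2 ≤ 10201 := by
      rcases q_gap p with h | h | h <;> omega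
    have hqr : (2 * (p.1 : ℝ) - 1) ^ 2 + 4 * (p.2 : ℝ) ^ 2 ≤ 10201 := by exact_mod_cast hq
    set X : ℝ := 2 * (p.1 : ℝ) - 1 with hX
    set Y : ℝ := (p.2 : ℝ) with hY
    have hXb : X ≤ 101 := by nlinarith [sq_nonneg Y]
    have hYb : -51 ≤ Y := by nlinarith [sq_nonneg X]
    have e : ((p.1 : ℝ) - (1 / 2 - a)) ^ 2 + (Y - b) ^ 2 =
        (X ^ 2 + 4 * Y ^ 2) / 4 + a * X - 2 * b * Y + a ^ 2 + b ^ 2 := by rw [hX]; ring
    rw [e]
    have h1 : a * X ≤ a * 101 := mul_le_mul_of_nonneg_left hXb ha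
    have h2 : b * (-Y) ≤ b * 51 := mul_le_mul_of_nonneg_left (by linarith) hb
    have h3 : a ^ 2 ≤ 1 / 256 := by nlinarith
    have h4 : b ^ 2 ≤ 1 / 256 := by nlinarith
    nlinarith
  · show ((p.1 : ℝ) - (1 / 2 - a)) ^ 2 + ((p.2 : ℝ) - b) ^ 2 < r ^ 2
    rw [Finset.mem_coe, B3] at hp
    simp only [Finset.mem_insert, Finset.mem_singleton] at hp
    have hstrict : rho < r → (10205 : ℝ) / 4 < r ^ 2 := by
      intro h
      rw [← rho_sq]
      exact pow_lt_pow_left₀ h rho_pos.le (by norm_num)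
    rcases hp with h | h | h <;> rw [h] <;> norm_num <;>
    · rcases hne with h0 | h0 | h0
      · have := hstrict h0
        nlinarith
      · nlinarith
      · nlinarith

/-! ### No circle of radius at least `rho` encloses exactly `8000` lattice points -/

lemma encard_translate (c : ℝ × ℝ) (r : ℝ) (m n : ℤ) :
    (enclosed (c.1 + m, c.2 + n) r).encard = (enclosed c r).encard := by
  refine encard_congr_equiv (Equiv.prodCongr (Equiv.addRight m) (Equiv.addRight n)) _ _ ?_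
  intro p
  show (((p.1 + m : ℤ) : ℝ) - (c.1 + m)) ^ 2 + (((p.2 + n : ℤ) : ℝ) - (c.2 + n)) ^ 2 < r ^ 2 ↔
    ((p.1 : ℝ) - c.1) ^ 2 + ((p.2 : ℝ) - c.2) ^ 2 < r ^ 2
  push_cast
  rw [show (p.1 : ℝ) + m - (c.1 + m) = p.1 - c.1 by ring,
    show (p.2 : ℝ) + n - (c.2 + n) = p.2 - c.2 by ring]

lemma encard_reflX (c : ℝ × ℝ) (r : ℝ) :
    (enclosed (1 - c.1, c.2) r).encard = (enclosed c r).encard := by
  refine encard_congr_equiv (Equiv.prodCongr (Equiv.subLeft 1) (Equiv.refl ℤ)) _ _ ?_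
  intro p
  show (((1 - p.1 : ℤ) : ℝ) - (1 - c.1)) ^ 2 + ((p.2 : ℝ) - c.2) ^ 2 < r ^ 2 ↔
    ((p.1 : ℝ) - c.1) ^ 2 + ((p.2 : ℝ) - c.2) ^ 2 < r ^ 2
  push_cast
  rw [show ((1 : ℝ) - p.1 - (1 - c.1)) ^ 2 = (p.1 - c.1) ^ 2 by ring]

lemma encard_reflY (c : ℝ × ℝ) (r : ℝ) :
    (enclosed (c.1, 1 - c.2) r).encard = (enclosed c r).encard := by
  refine encard_congr_equiv (Equiv.prodCongr (Equiv.refl ℤ) (Equiv.subLeft 1)) _ _ ?_
  intro p
  show ((p.1 : ℝ) - c.1) ^ 2 + (((1 - p.2 : ℤ) : ℝ) - (1 - c.2)) ^ 2 < r ^ 2 ↔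
    ((p.1 : ℝ) - c.1) ^ 2 + ((p.2 : ℝ) - c.2) ^ 2 < r ^ 2
  push_cast
  rw [show ((1 : ℝ) - p.2 - (1 - c.2)) ^ 2 = (p.2 - c.2) ^ 2 by ring]

lemma encard_swap (c : ℝ × ℝ) (r : ℝ) :
    (enclosed (c.2, c.1) r).encard = (enclosed c r).encard := by
  refine encard_congr_equiv (Equiv.prodComm ℤ ℤ) _ _ ?_
  intro p
  show ((p.2 : ℝ) - c.2) ^ 2 + ((p.1 : ℝ) - c.1) ^ 2 < r ^ 2 ↔
    ((p.1 : ℝ) - c.1) ^ 2 + ((p.2 : ℝ) - c.2) ^ 2 < r ^ 2
  rw [add_comm]

lemma not_8000_of_ge {c : ℝ × ℝ} {r : ℝ} (h : ((8001 : ℕ) : ℕ∞) ≤ (enclosed c r).encard) :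
    (enclosed c r).encard ≠ 8000 := by
  intro h'
  rw [h'] at h
  exact absurd h (by decide)

lemma main_triangle (c : ℝ × ℝ) (h0 : 0 ≤ c.2) (h1 : c.2 ≤ c.1) (h2 : c.1 ≤ 1 / 2)
    (r : ℝ) (hr : rho ≤ r) : (enclosed c r).encard ≠ 8000 := by
  by_cases hs : 127 / 256 ≤ c.1 ∧ c.2 ≤ 1 / 256
  · obtain ⟨hs1, hs2⟩ := hs
    have hc : c = (1 / 2 - (1 / 2 - c.1), c.2) := by ext <;> simp
    by_cases hne : rho < r ∨ 0 < 1 / 2 - c.1 ∨ 0 < c.2
    · apply not_8000_of_ge
      rw [hc]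
      exact special (1 / 2 - c.1) c.2 (by linarith) (by linarith) h0 hs2 r hr hne
    · push Not at hne
      obtain ⟨hn1, hn2, hn3⟩ := hne
      have hrr : r = rho := le_antisymm hn1 hr
      have hcc : c = (1 / 2, 0) := by
        ext
        · show c.1 = 1 / 2
          linarith
        · show c.2 = 0
          linarith
      rw [hrr, hcc, enclosed_center, S0_encard]
      decide
  · apply not_8000_of_ge
    have := chk_sound 10 0 1 0 1 2 (by norm_num) (by norm_num) (by norm_num) chk_true c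
      (by push_cast; linarith) (by push_cast; linarith) (by push_cast; linarith)
      (by push_cast; linarith) h1 hs
    exact le_trans this (Set.encard_le_encard (enclosed_mono c rho_pos.le hr))

lemma main_square (c : ℝ × ℝ) (h1 : 0 ≤ c.1) (h1' : c.1 ≤ 1 / 2) (h2 : 0 ≤ c.2)
    (h2' : c.2 ≤ 1 / 2) (r : ℝ) (hr : rho ≤ r) : (enclosed c r).encard ≠ 8000 := by
  rcases le_total c.2 c.1 with h | h
  · exact main_triangle c h2 h h1' r hr
  · rw [← encard_swap]
    exact main_triangle (c.2, c.1) h1 h h2' r hr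

lemma main_unit (c : ℝ × ℝ) (h1 : 0 ≤ c.1) (h1' : c.1 ≤ 1) (h2 : 0 ≤ c.2)
    (h2' : c.2 ≤ 1) (r : ℝ) (hr : rho ≤ r) : (enclosed c r).encard ≠ 8000 := by
  rcases le_total c.1 (1 / 2) with hx | hx <;> rcases le_total c.2 (1 / 2) with hy | hy
  · exact main_square c h1 hx h2 hy r hr
  · rw [← encard_reflY]
    exact main_square (c.1, 1 - c.2) h1 hx (by simpa using h2') (by
      show 1 - c.2 ≤ 1 / 2
      linarith) r hr
  · rw [← encard_reflX]
    exact main_square (1 - c.1, c.2) (by simpa using h1') (by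
      show 1 - c.1 ≤ 1 / 2
      linarith) h2 hy r hr
  · rw [← encard_reflX, ← encard_reflY]
    exact main_square (1 - c.1, 1 - c.2) (by simpa using h1') (by
      show 1 - c.1 ≤ 1 / 2
      linarith) (by simpa using h2') (by
      show 1 - c.2 ≤ 1 / 2
      linarith) r hr

theorem no_large (c : ℝ × ℝ) (r : ℝ) (hr : rho ≤ r) : (enclosed c r).encard ≠ 8000 := by
  have h := encard_translate (Int.fract c.1, Int.fract c.2) r ⌊c.1⌋ ⌊c.2⌋
  have hc : ((Int.fract c.1, Int.fract c.2) : ℝ × ℝ).1 + (⌊c.1⌋ : ℝ) = c.1 :=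
    Int.fract_add_floor c.1
  have hc' : ((Int.fract c.1, Int.fract c.2) : ℝ × ℝ).2 + (⌊c.2⌋ : ℝ) = c.2 :=
    Int.fract_add_floor c.2
  rw [hc, hc'] at h
  have : (enclosed c r) = (enclosed (c.1, c.2) r) := rfl
  rw [this, h]
  exact main_unit _ (Int.fract_nonneg _) (Int.fract_lt_one _).le (Int.fract_nonneg _)
    (Int.fract_lt_one _).le r hr

/-! ### Circles enclosing exactly `8000` lattice points with radius close to `rho` -/

lemma enclosed_near (t : ℝ) (ht : 0 < t) (ht' : t ≤ 1 / 1000) :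
    enclosed (1 / 2 + t, 0) (Real.sqrt (10205 / 4 - 100 * t)) =
      S0 ∪ (({(51, 1), (51, -1)} : Finset (ℤ × ℤ)) : Set (ℤ × ℤ)) := by
  ext p
  have hmem : p ∈ enclosed (1 / 2 + t, 0) (Real.sqrt (10205 / 4 - 100 * t)) ↔
      (2 * (p.1 : ℝ) - 1) ^ 2 + 4 * (p.2 : ℝ) ^ 2 - 4 * t * (2 * (p.1 : ℝ) - 1) + 4 * t ^ 2 <
        10205 - 400 * t := by
    show ((p.1 : ℝ) - (1 / 2 + t)) ^ 2 + ((p.2 : ℝ) - 0) ^ 2 < _ ^ 2 ↔ _
    rw [Real.sq_sqrt (by linarith)]
    constructor <;> intro h <;> nlinarith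
  rw [hmem, Set.mem_union]
  have ht2 : 4 * t ^ 2 ≤ t := by nlinarith
  have ht3 : 0 < t ^ 2 := by positivity
  rcases q_gap p with hq | hq | hq
  · have hqr : (2 * (p.1 : ℝ) - 1) ^ 2 + 4 * (p.2 : ℝ) ^ 2 ≤ 10201 := by exact_mod_cast hq
    have hX : -101 ≤ 2 * (p.1 : ℝ) - 1 := by nlinarith [sq_nonneg (p.2 : ℝ)]
    constructor
    · intro _
      left
      show (2 * p.1 - 1) ^ 2 + 4 * p.2 ^ 2 < 10205
      omega
    · intro _
      have : t * (-101) ≤ t * (2 * (p.1 : ℝ) - 1) := mul_le_mul_of_nonneg_left hX ht.le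
      nlinarith
  · have hqr : (2 * (p.1 : ℝ) - 1) ^ 2 + 4 * (p.2 : ℝ) ^ 2 = 10205 := by exact_mod_cast hq
    rw [hqr]
    have hXle : 2 * p.1 - 1 ≤ 101 := by nlinarith [sq_nonneg p.2]
    constructor
    · intro h
      right
      have h2 : 100 < 2 * (p.1 : ℝ) - 1 := by
        by_contra hcon
        push Not at hcon
        have : t * (2 * (p.1 : ℝ) - 1) ≤ t * 100 := mul_le_mul_of_nonneg_left hcon ht.le
        nlinarith
      have h3 : 100 < 2 * p.1 - 1 := by exact_mod_cast h2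
      have h4 : p.1 = 51 := by omega
      have h5 : p.2 ^ 2 = 1 := by
        rw [h4] at hq
        omega
      have h6 : p.2 = 1 ∨ p.2 = -1 :=
        sq_eq_sq_iff_eq_or_eq_neg.1 (h5.trans (one_pow 2).symm)
      rw [Finset.mem_coe, Finset.mem_insert, Finset.mem_singleton]
      rcases h6 with h6 | h6
      · left; ext
        · exact h4
        · exact h6
      · right; ext
        · exact h4
        · exact h6
    · rintro (h | h)
      · exfalso
        have h' : (2 * p.1 - 1) ^ 2 + 4 * p.2 ^ 2 < 10205 := h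
        omega
      · rw [Finset.mem_coe, Finset.mem_insert, Finset.mem_singleton] at h
        have h4 : p.1 = 51 := by
          rcases h with h | h <;> rw [h]
        rw [h4]
        push_cast
        nlinarith
  · have hqr : 10209 ≤ (2 * (p.1 : ℝ) - 1) ^ 2 + 4 * (p.2 : ℝ) ^ 2 := by exact_mod_cast hq
    constructor
    · intro h
      exfalso
      set X : ℝ := 2 * (p.1 : ℝ) - 1
      set Y : ℝ := (p.2 : ℝ)
      have hX : 202 * X ≤ X ^ 2 + 10201 := by nlinarith [sq_nonneg (X - 101)]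
      have h1 : t * (202 * X) ≤ t * (X ^ 2 + 4 * Y ^ 2 + 10201) :=
        mul_le_mul_of_nonneg_left (by nlinarith [sq_nonneg Y]) ht.le
      have h2 : t * (X ^ 2 + 4 * Y ^ 2 - 10209) ≤ (1 / 1000) * (X ^ 2 + 4 * Y ^ 2 - 10209) :=
        mul_le_mul_of_nonneg_right ht' (by linarith)
      nlinarith
    · rintro (h | h)
      · exfalso
        have h' : (2 * p.1 - 1) ^ 2 + 4 * p.2 ^ 2 < 10205 := h
        omega
      · exfalso
        rw [Finset.mem_coe, Finset.mem_insert, Finset.mem_singleton] at h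
        rcases h with h | h <;> rw [h] at hq <;> norm_num at hq

lemma near_encard (t : ℝ) (ht : 0 < t) (ht' : t ≤ 1 / 1000) :
    (enclosed (1 / 2 + t, 0) (Real.sqrt (10205 / 4 - 100 * t))).encard = 8000 := by
  rw [enclosed_near t ht ht', Set.encard_union_eq]
  · rw [S0_encard, Set.encard_coe_eq_coe_finsetCard]
    have : (({(51, 1), (51, -1)} : Finset (ℤ × ℤ))).card = 2 := by decide
    rw [this]
    norm_num
  · rw [Set.disjoint_left]
    intro p hp h
    have hp' : (2 * p.1 - 1) ^ 2 + 4 * p.2 ^ 2 < 10205 := hp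
    rw [Finset.mem_coe, Finset.mem_insert, Finset.mem_singleton] at h
    rcases h with h | h <;> rw [h] at hp' <;> norm_num at hp'

lemma near_mem (t : ℝ) (ht : 0 < t) (ht' : t ≤ 1 / 1000) :
    Real.sqrt (10205 / 4 - 100 * t) ∈ radii 8000 :=
  ⟨(1 / 2 + t, 0), Real.sqrt_pos.2 (by linarith), near_encard t ht ht'⟩

theorem isLUB_radii : IsLUB (radii 8000) rho := by
  constructor
  · rintro r ⟨c, hr0, hr⟩
    by_contra hcon
    push Not at hcon
    exact no_large c r hcon.le hr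
  · intro b hb
    by_contra hcon
    push Not at hcon
    rcases lt_or_ge b 0 with hb0 | hb0
    · have := hb (near_mem (1 / 1000) (by norm_num) le_rfl)
      have h2 := Real.sqrt_nonneg (10205 / 4 - 100 * (1 / 1000))
      linarith
    · have hb2 : b ^ 2 < 10205 / 4 := by
        rw [← rho_sq]
        exact pow_lt_pow_left₀ hcon hb0 (by norm_num)
      set t : ℝ := min (1 / 1000) ((10205 / 4 - b ^ 2) / 200) with ht
      have ht0 : 0 < t := lt_min (by norm_num) (by linarith)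
      have ht1 : t ≤ 1 / 1000 := min_le_left _ _
      have ht2 : t ≤ (10205 / 4 - b ^ 2) / 200 := min_le_right _ _
      have h1 := hb (near_mem t ht0 ht1)
      have h2 : b < Real.sqrt (10205 / 4 - 100 * t) := by
        rw [Real.lt_sqrt hb0]
        linarith
      linarith

/-- **`f(50) = 8000` is not MC.**  The supremum of the radii of the `8000`-enclosing circles is
`√10205 / 2`, and it is not attained; so assertion (a) of the question, that `f(k)` is MC for every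
`k ≥ 1`, fails at `k = 50`. -/
theorem result :
    f 50 = 8000 ∧ IsLUB (radii 8000) (Real.sqrt 10205 / 2) ∧ ¬ MC (f 50) := by
  refine ⟨f_fifty, isLUB_radii, ?_⟩
  rw [f_fifty]
  rintro ⟨c, _, h⟩
  have hR : R 8000 = rho := isLUB_radii.csSup_eq ⟨_, near_mem (1 / 1000) (by norm_num) le_rfl⟩
  rw [hR] at h
  exact no_large c rho le_rfl h

end Pool.Agent.Results.MP_2ab2dc_nt.NonMC8000
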